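import Mathlib

/-!
# 2-connected, highly edge-connected graphs without `(s,t)`-triples

For every `L` we construct a 2-connected `L`-edge-connected simple graph that has no
`(s,t)`-triple for any choice of distinct `s, t`.

The graph has two hubs `a, b` and `q` copies of a gadget with vertices `x, y, z` and three
cliques `r 0, r 1, r 2` of size `K`; `r 0` is joined to `x, y`, `r 1` is joined to `x, b`,
`r 2` is joined to `z, b`, and there are the single edges `a x` and `y z`.
-/

namespace Pool.Agent.Results.MP_bdb63f_co.NoGoodOrientation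

open SimpleGraph

/-- `G` is 2-connected: it has at least three vertices, it is connected, and it remains
connected after deleting any one vertex. -/
def IsTwoConnected {V : Type} [Fintype V] (G : SimpleGraph V) : Prop :=
  3 ≤ Fintype.card V ∧ G.Connected ∧ ∀ v : V, (G.induce {w | w ≠ v}).Connected

/-- `G` is `L`-edge-connected: it remains connected after deleting fewer than `L` edges. -/
def IsLEdgeConnected {V : Type} (L : ℕ) (G : SimpleGraph V) : Prop :=
  ∀ F : Finset (Sym2 V), F.card < L → (G.deleteEdges (F : Set (Sym2 V))).Connected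

/-- `G` has an `(s,t)`-triple: a total order `≤` on the vertices and two edge-disjoint spanning
trees `I`, `O` such that every `v ≠ t` is joined by an edge of `I` to a larger vertex and every
`v ≠ s` is joined by an edge of `O` to a smaller vertex. -/
def HasTriple {V : Type} (G : SimpleGraph V) (s t : V) : Prop :=
  ∃ (_ : LinearOrder V) (I O : SimpleGraph V), I ≤ G ∧ O ≤ G ∧ I.IsTree ∧ O.IsTree ∧
    Disjoint I.edgeSet O.edgeSet ∧
    (∀ v, v ≠ t → ∃ w, I.Adj v w ∧ v < w) ∧ (∀ v, v ≠ s → ∃ w, O.Adj v w ∧ w < v)

/-- The vertices of the graph. -/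
inductive Vtx (q K : ℕ) : Type
  | a : Vtx q K
  | b : Vtx q K
  | x : Fin q → Vtx q K
  | y : Fin q → Vtx q K
  | z : Fin q → Vtx q K
  | r : Fin q → Fin 3 → Fin K → Vtx q K
  deriving DecidableEq, Fintype

variable {q K : ℕ}

open Vtx

/-- The edges, in one direction. -/
def rel : Vtx q K → Vtx q K → Prop
  | .a, .x _ => True
  | .y i, .z j => i = j
  | .x i, .r j l _ => i = j ∧ (l = 0 ∨ l = 1)
  | .y i, .r j l _ => i = j ∧ l = 0
  | .z i, .r j l _ => i = j ∧ l = 2
  | .b, .r _ l _ => l = 1 ∨ l = 2
  | .r i l _, .r i' l' _ => i = i' ∧ l = l'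
  | _, _ => False

/-- The graph. -/
def Gr (q K : ℕ) : SimpleGraph (Vtx q K) := SimpleGraph.fromRel rel

/-- The copy in which a vertex lies. -/
def comp : Vtx q K → Option (Fin q)
  | .a => none
  | .b => none
  | .x i => some i
  | .y i => some i
  | .z i => some i
  | .r i _ _ => some i

/-- Neighbours of a copy are in the copy, or equal to `a` (from `x`) or to `b`. -/
theorem adj_comp {i : Fin q} {v w : Vtx q K} (hv : comp v = some i) (h : (Gr q K).Adj v w) :
    comp w = some i ∨ (w = a ∧ v = x i) ∨ w = b := by
  cases v <;> cases w <;> simp_all [Gr, rel, comp, fromRel_adj]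
  rcases h.2 with h | h
  · exact h.1.symm
  · exact h.1

/-- Neighbours of `z` and its clique. -/
theorem adj_z {i : Fin q} {v w : Vtx q K} (hv : v = z i ∨ ∃ k, v = r i 2 k)
    (h : (Gr q K).Adj v w) : (w = z i ∨ ∃ k, w = r i 2 k) ∨ (w = y i ∧ v = z i) ∨ w = b := by
  rcases hv with rfl | ⟨k, rfl⟩ <;> cases w <;> simp_all [Gr, rel, fromRel_adj]
  rcases h.2 with h | h
  · exact ⟨h.1.symm, h.2.symm⟩
  · exact h

/-- Neighbours of `y` and its clique. -/
theorem adj_y {i : Fin q} {v w : Vtx q K} (hv : v = y i ∨ ∃ k, v = r i 0 k)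
    (h : (Gr q K).Adj v w) : (w = y i ∨ ∃ k, w = r i 0 k) ∨ (w = z i ∧ v = y i) ∨ w = x i := by
  rcases hv with rfl | ⟨k, rfl⟩ <;> cases w <;> simp_all [Gr, rel, fromRel_adj]
  rcases h.2 with h | h
  · exact ⟨h.1.symm, h.2.symm⟩
  · exact h

theorem core {α : Type} [LinearOrder α] (f : Vtx q K → α) (I O : SimpleGraph (Vtx q K))
    (hI : I ≤ Gr q K) (hO : O ≤ Gr q K) (hdis : Disjoint I.edgeSet O.edgeSet) (i : Fin q)
    (h1 : ∀ v, comp v = some i → ∃ w, I.Adj v w ∧ f v < f w)
    (h2 : ∀ v, comp v = some i → ∃ w, O.Adj v w ∧ f w < f v) (hba : f b < f a) : False := by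
  classical
  -- the extreme vertices of the copy
  have hne : (Finset.univ.filter (fun v : Vtx q K => comp v = some i)).Nonempty :=
    ⟨x i, Finset.mem_filter.2 ⟨Finset.mem_univ _, rfl⟩⟩
  obtain ⟨M, hM, hMmax⟩ := Finset.exists_max_image _ f hne
  obtain ⟨m, hm, hmmin⟩ := Finset.exists_min_image _ f hne
  simp only [Finset.mem_filter, Finset.mem_univ, true_and] at hM hMmax hm hmmin
  obtain ⟨w, hw, hMw⟩ := h1 M hM
  obtain ⟨w', hw', hmw'⟩ := h2 m hm
  have hmM : f m ≤ f M := hMmax m hm
  have hbm : f b < f m := by
    rcases adj_comp hm (hO hw') with h | ⟨h, _⟩ | h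
    · exact absurd (hmmin w' h) (not_le.2 hmw')
    · subst h
      rcases adj_comp hM (hI hw) with h | ⟨h, _⟩ | h
      · exact absurd (hMmax w h) (not_le.2 hMw)
      · subst h
        exact absurd (hmw'.trans_le (hmM.trans hMw.le)) (lt_irrefl _)
      · subst h
        exact absurd (hba.trans (hmw'.trans_le (hmM.trans hMw.le))) (lt_irrefl _)
    · subst h
      exact hmw'
  have hMx : M = x i := by
    rcases adj_comp hM (hI hw) with h | ⟨_, h⟩ | h
    · exact absurd (hMmax w h) (not_le.2 hMw)
    · exact h
    · subst h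
      exact absurd (hbm.trans_le (hmM.trans hMw.le)) (lt_irrefl _)
  subst hMx
  -- the edge `z y` is in `I`
  have hIzy : I.Adj (z i) (y i) := by
    have hne2 : (Finset.univ.filter
        (fun v : Vtx q K => v = z i ∨ ∃ k, v = r i 2 k)).Nonempty := ⟨z i, by simp⟩
    obtain ⟨N, hN, hNmax⟩ := Finset.exists_max_image _ f hne2
    simp only [Finset.mem_filter, Finset.mem_univ, true_and] at hN hNmax
    have hNc : comp N = some i := by
      rcases hN with rfl | ⟨k, rfl⟩ <;> rfl
    obtain ⟨w2, hw2, hlt⟩ := h1 N hNc
    rcases adj_z hN (hI hw2) with h | ⟨h, h'⟩ | h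
    · exact absurd (hNmax w2 h) (not_le.2 hlt)
    · rw [← h, ← h']
      exact hw2
    · subst h
      exact absurd (hbm.trans_le ((hmmin N hNc).trans hlt.le)) (lt_irrefl _)
  -- the edge `y z` is in `O`
  have hOyz : O.Adj (y i) (z i) := by
    have hne2 : (Finset.univ.filter
        (fun v : Vtx q K => v = y i ∨ ∃ k, v = r i 0 k)).Nonempty := ⟨y i, by simp⟩
    obtain ⟨N, hN, hNmin⟩ := Finset.exists_min_image _ f hne2
    simp only [Finset.mem_filter, Finset.mem_univ, true_and] at hN hNmin
    have hNc : comp N = some i := by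
      rcases hN with rfl | ⟨k, rfl⟩ <;> rfl
    obtain ⟨w2, hw2, hlt⟩ := h2 N hNc
    rcases adj_y hN (hO hw2) with h | ⟨h, h'⟩ | h
    · exact absurd (hNmin w2 h) (not_le.2 hlt)
    · rw [← h, ← h']
      exact hw2
    · subst h
      exact absurd (hMmax N hNc) (not_le.2 hlt)
  exact Set.disjoint_left.1 hdis (show s(z i, y i) ∈ I.edgeSet from hIzy)
    (show s(z i, y i) ∈ O.edgeSet from hOyz.symm)

theorem no_triple (hq : 3 ≤ q) (s t : Vtx q K) : ¬ HasTriple (Gr q K) s t := by
  rintro ⟨o, I, O, hI, hO, -, -, hdis, h1, h2⟩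
  -- a copy without `s` and `t`
  have hex : ∃ i : Fin q, some i ≠ comp s ∧ some i ≠ comp t := by
    by_contra hcon
    push Not at hcon
    have hsub : (Finset.univ : Finset (Fin q)).image some ⊆ {comp s, comp t} := by
      intro c hc
      rw [Finset.mem_image] at hc
      obtain ⟨i, -, rfl⟩ := hc
      rw [Finset.mem_insert, Finset.mem_singleton]
      by_cases h : some i = comp s
      · exact Or.inl h
      · exact Or.inr (hcon i h)
    have h3 := Finset.card_le_card hsub
    rw [Finset.card_image_of_injective _ (Option.some_injective _), Finset.card_univ,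
      Fintype.card_fin] at h3
    have := Finset.card_le_two (a := comp s) (b := comp t)
    omega
  obtain ⟨i, his, hit⟩ := hex
  have k1 : ∀ v, comp v = some i → ∃ w, I.Adj v w ∧ v < w := by
    intro v hv
    exact h1 v (fun h => hit (by rw [← hv, h]))
  have k2 : ∀ v, comp v = some i → ∃ w, O.Adj v w ∧ w < v := by
    intro v hv
    exact h2 v (fun h => his (by rw [← hv, h]))
  rcases lt_trichotomy (a : Vtx q K) b with h | h | h
  · exact core (α := (Vtx q K)ᵒᵈ) OrderDual.toDual O I hO hI hdis.symm i k2 k1 h
  · exact absurd h (by simp)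
  · exact core (fun v => v) I O hI hO hdis i k1 k2 h

section connectivity

/-- Two vertices with at least `L` common neighbours stay connected after deleting fewer
than `L` edges. -/
theorem common_reachable {V : Type} [DecidableEq V] (G : SimpleGraph V) (F : Finset (Sym2 V))
    {u v : V} (huv : u ≠ v) (M : Finset V) (hM : F.card < M.card)
    (h : ∀ w ∈ M, G.Adj u w ∧ G.Adj w v) : (G.deleteEdges (F : Set (Sym2 V))).Reachable u v := by
  by_contra hcon
  have key : ∀ w ∈ M, s(u, w) ∉ F → s(w, v) ∈ F := by
    intro w hw h1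
    by_contra h2
    apply hcon
    have e1 : (G.deleteEdges (F : Set (Sym2 V))).Adj u w := by
      rw [deleteEdges_adj]
      exact ⟨(h w hw).1, h1⟩
    have e2 : (G.deleteEdges (F : Set (Sym2 V))).Adj w v := by
      rw [deleteEdges_adj]
      exact ⟨(h w hw).2, h2⟩
    exact e1.reachable.trans e2.reachable
  have hle : M.card ≤ F.card := by
    apply Finset.card_le_card_of_injOn (fun w => if s(u, w) ∈ F then s(u, w) else s(w, v))
    · intro w hw
      by_cases h1 : s(u, w) ∈ F
      · simp only [h1, if_true]
        exact h1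
      · simp only [h1, if_false]
        exact key w hw h1
    · intro w hw w' hw' heq
      have n1 := (h w hw).1.ne
      have n2 := (h w hw).2.ne
      have n3 := (h w' hw').1.ne
      have n4 := (h w' hw').2.ne
      simp only at heq
      split_ifs at heq <;> rw [Sym2.eq_iff] at heq <;> rcases heq with ⟨e1, e2⟩ | ⟨e1, e2⟩
      · exact e2
      · exact e2.trans e1
      · exact absurd e1 n3
      · exact absurd e1 huv
      · exact absurd e1.symm n1
      · exact absurd e2.symm huv
      · exact e1
      · exact e1.trans e2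
  omega

theorem edgeConnected {L : ℕ} (hq : L ≤ q) (hK : L + 1 ≤ K) :
    IsLEdgeConnected L (Gr q K) := by
  intro F hF
  have hK0 : 0 < K := by omega
  -- cliques
  have hcl : ∀ (i : Fin q) (l : Fin 3) (k : Fin K) (p : Vtx q K),
      (∀ k', (Gr q K).Adj (r i l k') p) →
      ((Gr q K).deleteEdges (F : Set (Sym2 (Vtx q K)))).Reachable (r i l k) p := by
    intro i l k p hp
    have hne : r i l k ≠ p := (hp k).ne
    refine common_reachable _ F hne ((Finset.univ.erase k).image (fun k' => r i l k')) ?_ ?_
    · rw [Finset.card_image_of_injective, Finset.card_erase_of_mem (Finset.mem_univ k),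
        Finset.card_univ, Fintype.card_fin]
      · omega
      · intro k1 k2 h
        simpa using h
    · intro w hw
      rw [Finset.mem_image] at hw
      obtain ⟨k', hk', rfl⟩ := hw
      refine ⟨?_, hp k'⟩
      have := Finset.ne_of_mem_erase hk'
      simp [Gr, rel, fromRel_adj, this.symm]
  have hpq : ∀ (i : Fin q) (l : Fin 3) (p p' : Vtx q K), p ≠ p' →
      (∀ k', (Gr q K).Adj (r i l k') p) → (∀ k', (Gr q K).Adj (r i l k') p') →
      ((Gr q K).deleteEdges (F : Set (Sym2 (Vtx q K)))).Reachable p p' := by
    intro i l p p' _ h h'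
    exact (hcl i l ⟨0, hK0⟩ p h).symm.trans (hcl i l ⟨0, hK0⟩ p' h')
  have hb : ∀ v, ((Gr q K).deleteEdges (F : Set (Sym2 (Vtx q K)))).Reachable v b := by
    have hx : ∀ i, ((Gr q K).deleteEdges (F : Set (Sym2 (Vtx q K)))).Reachable (x i) b := by
      intro i
      apply hpq i 1
      · simp
      · intro k'
        simp [Gr, rel, fromRel_adj]
      · intro k'
        simp [Gr, rel, fromRel_adj]
    intro v
    cases v with
    | a =>
      -- some edge `a x_i` survives
      have : ∃ i : Fin q, s(a, x i) ∉ F := by
        by_contra hcon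
        push Not at hcon
        have h1 : q ≤ F.card := by
          have h2 : (Finset.univ : Finset (Fin q)).card ≤ F.card := by
            apply Finset.card_le_card_of_injOn (fun i => s(a, x i))
            · intro i _
              exact hcon i
            · intro i _ j _ hij
              simpa using hij
          simpa using h2
        omega
      obtain ⟨i, hi⟩ := this
      have e1 : ((Gr q K).deleteEdges (F : Set (Sym2 (Vtx q K)))).Adj a (x i) := by
        rw [deleteEdges_adj]
        exact ⟨by simp [Gr, rel, fromRel_adj], hi⟩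
      exact e1.reachable.trans (hx i)
    | b => exact Reachable.refl _
    | x i => exact hx i
    | y i =>
      refine Reachable.trans ?_ (hx i)
      apply hpq i 0
      · simp
      · intro k'
        simp [Gr, rel, fromRel_adj]
      · intro k'
        simp [Gr, rel, fromRel_adj]
    | z i =>
      apply hpq i 2
      · simp
      · intro k'
        simp [Gr, rel, fromRel_adj]
      · intro k'
        simp [Gr, rel, fromRel_adj]
    | r i l k =>
      fin_cases l
      · refine Reachable.trans ?_ (hx i)
        apply hcl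
        intro k'
        simp [Gr, rel, fromRel_adj]
      · apply hcl
        intro k'
        simp [Gr, rel, fromRel_adj]
      · apply hcl
        intro k'
        simp [Gr, rel, fromRel_adj]
  have : Nonempty (Vtx q K) := ⟨a⟩
  exact ⟨fun u v => (hb u).trans (hb v).symm⟩

/-- Reachability avoiding a vertex. -/
def Rch (c u v : Vtx q K) : Prop :=
  ∃ (hu : u ∈ {w | w ≠ c}) (hv : v ∈ {w | w ≠ c}),
    ((Gr q K).induce {w | w ≠ c}).Reachable ⟨u, hu⟩ ⟨v, hv⟩

theorem Rch.trans {c u v w : Vtx q K} (h1 : Rch c u v) (h2 : Rch c v w) : Rch c u w := by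
  obtain ⟨a1, a2, a3⟩ := h1
  obtain ⟨b1, b2, b3⟩ := h2
  exact ⟨a1, b2, a3.trans b3⟩

theorem Rch.symm {c u v : Vtx q K} (h1 : Rch c u v) : Rch c v u := by
  obtain ⟨a1, a2, a3⟩ := h1
  exact ⟨a2, a1, a3.symm⟩

theorem Rch.step {c u v : Vtx q K} (hu : u ≠ c) (hv : v ≠ c) (h : (Gr q K).Adj u v) :
    Rch c u v :=
  ⟨hu, hv, Adj.reachable (show ((Gr q K).induce {w | w ≠ c}).Adj ⟨u, hu⟩ ⟨v, hv⟩ from h)⟩

theorem rch_refl {c u : Vtx q K} (hu : u ≠ c) : Rch c u u := ⟨hu, hu, Reachable.refl _⟩

theorem connected_of_root {c root : Vtx q K} (hr : root ≠ c) (h : ∀ u, u ≠ c → Rch c u root) :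
    ((Gr q K).induce {w | w ≠ c}).Connected := by
  have : Nonempty {w : Vtx q K | w ≠ c} := ⟨⟨root, hr⟩⟩
  refine ⟨fun u v => ?_⟩
  obtain ⟨_, _, h1⟩ := h u.1 u.2
  obtain ⟨_, _, h2⟩ := h v.1 v.2
  exact h1.trans h2.symm

theorem twoConnected (hq : 2 ≤ q) (hK : 2 ≤ K) : IsTwoConnected (Gr q K) := by
  have hK0 : 0 < K := by omega
  have hconn : (Gr q K).Connected := by
    have h := edgeConnected (q := q) (K := K) (L := 1) (by omega) (by omega) ∅
      (by simp)
    simpa using h
  refine ⟨?_, hconn, ?_⟩
  · have h1 : Fintype.card (Fin 2 ⊕ Fin q) ≤ Fintype.card (Vtx q K) := by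
      apply Fintype.card_le_of_injective
        (fun c => match c with
          | Sum.inl 0 => (a : Vtx q K)
          | Sum.inl 1 => b
          | Sum.inr i => x i)
      intro c c' h
      rcases c with c | c <;> rcases c' with c' | c'
      · fin_cases c <;> fin_cases c' <;> simp_all
      · fin_cases c <;> simp_all
      · fin_cases c' <;> simp_all
      · simpa using h
    simp at h1
    omega
  · intro c
    -- another element of a clique
    have hk : ∀ (i : Fin q) (l : Fin 3), ∃ k : Fin K, r i l k ≠ c := by
      intro i l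
      by_cases h : r i l ⟨0, hK0⟩ = c
      · refine ⟨⟨1, by omega⟩, fun h' => ?_⟩
        have := h.trans h'.symm
        simp at this
      · exact ⟨_, h⟩
    by_cases hcb : c = b
    · subst hcb
      have hx : ∀ i, Rch (b : Vtx q K) (x i) a := fun i =>
        Rch.step (by simp) (by simp) (by simp [Gr, rel, fromRel_adj])
      have hr0 : ∀ i k, Rch (b : Vtx q K) (r i 0 k) a := fun i k =>
        (Rch.step (v := x i) (by simp) (by simp) (by simp [Gr, rel, fromRel_adj])).trans (hx i)
      have hy : ∀ i, Rch (b : Vtx q K) (y i) a := fun i =>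
        (Rch.step (v := r i 0 ⟨0, hK0⟩) (by simp) (by simp)
          (by simp [Gr, rel, fromRel_adj])).trans (hr0 i _)
      have hz : ∀ i, Rch (b : Vtx q K) (z i) a := fun i =>
        (Rch.step (v := y i) (by simp) (by simp)
          (by simp [Gr, rel, fromRel_adj])).trans (hy i)
      apply connected_of_root (root := a) (by simp)
      intro u hu
      cases u with
      | a => exact rch_refl hu
      | b => exact absurd rfl hu
      | x i => exact hx i
      | y i => exact hy i
      | z i => exact hz i
      | r i l k =>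
        fin_cases l
        · exact hr0 i k
        · exact (Rch.step (v := x i) (by simp) (by simp)
            (by simp [Gr, rel, fromRel_adj])).trans (hx i)
        · exact (Rch.step (v := z i) (by simp) (by simp)
            (by simp [Gr, rel, fromRel_adj])).trans (hz i)
    · have hbc : (b : Vtx q K) ≠ c := fun h => hcb h.symm
      have hx : ∀ i, x i ≠ c → Rch c (x i) b := by
        intro i hi
        obtain ⟨k, hk⟩ := hk i 1
        exact (Rch.step (v := r i 1 k) hi hk (by simp [Gr, rel, fromRel_adj])).trans
          (Rch.step hk hbc (by simp [Gr, rel, fromRel_adj]))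
      have hz : ∀ i, z i ≠ c → Rch c (z i) b := by
        intro i hi
        obtain ⟨k, hk⟩ := hk i 2
        exact (Rch.step (v := r i 2 k) hi hk (by simp [Gr, rel, fromRel_adj])).trans
          (Rch.step hk hbc (by simp [Gr, rel, fromRel_adj]))
      have hy : ∀ i, y i ≠ c → Rch c (y i) b := by
        intro i hi
        by_cases h : x i = c
        · have hzc : z i ≠ c := by
            rw [← h]
            simp
          exact (Rch.step (v := z i) hi hzc (by simp [Gr, rel, fromRel_adj])).trans (hz i hzc)
        · obtain ⟨k, hk⟩ := hk i 0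
          exact ((Rch.step (v := r i 0 k) hi hk (by simp [Gr, rel, fromRel_adj])).trans
            (Rch.step (v := x i) hk h (by simp [Gr, rel, fromRel_adj]))).trans (hx i h)
      apply connected_of_root (root := b) hbc
      intro u hu
      cases u with
      | a =>
        have : ∃ i : Fin q, x i ≠ c := by
          by_cases h : x ⟨0, by omega⟩ = c
          · refine ⟨⟨1, by omega⟩, fun h' => ?_⟩
            have := h.trans h'.symm
            simp at this
          · exact ⟨_, h⟩
        obtain ⟨i, hi⟩ := this
        exact (Rch.step (v := x i) hu hi (by simp [Gr, rel, fromRel_adj])).trans (hx i hi)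
      | b => exact rch_refl hu
      | x i => exact hx i hu
      | y i => exact hy i hu
      | z i => exact hz i hu
      | r i l k =>
        fin_cases l
        · by_cases h : x i = c
          · have hyc : y i ≠ c := by
              rw [← h]
              simp
            exact (Rch.step (v := y i) hu hyc (by simp [Gr, rel, fromRel_adj])).trans (hy i hyc)
          · exact (Rch.step (v := x i) hu h (by simp [Gr, rel, fromRel_adj])).trans (hx i h)
        · exact Rch.step hu hbc (by simp [Gr, rel, fromRel_adj])
        · exact Rch.step hu hbc (by simp [Gr, rel, fromRel_adj])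

end connectivity

/-- **Answer to Q1 (no).** There is no `L` such that every 2-connected `L`-edge-connected graph
admits an `(s,t)`-triple for some distinct `s, t`; this already fails for simple graphs. -/
theorem result : ¬ ∃ L : ℕ, ∀ (V : Type) [Fintype V] (G : SimpleGraph V),
    IsTwoConnected G → IsLEdgeConnected L G → ∃ s t : V, s ≠ t ∧ HasTriple G s t := by
  rintro ⟨L, h⟩
  obtain ⟨s, t, _, hst⟩ := h (Vtx (max L 3) (L + 2)) (Gr (max L 3) (L + 2))
    (twoConnected (by have := le_max_right L 3; omega) (by omega))
    (edgeConnected (le_max_left L 3) (by omega))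
  exact no_triple (le_max_right L 3) s t hst

end Pool.Agent.Results.MP_bdb63f_co.NoGoodOrientation
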